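import Pool.Agent.helper97.IRO.Spec

set_option autoImplicit false

/-! # Invariant random left orders of `F`, row FN3 -/

open MeasureTheory Pool.Agent.LOF

namespace Pool.Agent.IRO

lemma FN3_pos_meas (g : F) : MeasurableSet {ε : DD → Bool | Pos ε g.1} := by
  have h : {ε : DD → Bool | Pos ε g.1} = (fun ε => (Phi ε).1 (1, g)) ⁻¹' {true} := by
    ext ε
    rw [Set.mem_ofPred_eq, Set.mem_preimage, Set.mem_singleton_iff, Phi_apply, inv_one, one_mul]
  rw [h]
  exact ((measurable_pi_apply (1, g)).comp (measurable_subtype_coe.comp Phi_measurable))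
    (measurableSet_singleton true)

lemma FN3_ext_meas : Measurable fun z : Bool × (D → Bool) => ext z.1 z.2 := by
  rw [measurable_pi_iff]
  intro y
  by_cases h : y.1 < 1
  · have : (fun z : Bool × (D → Bool) => ext z.1 z.2 y) = fun z => z.2 ⟨y.1, y.2.1, y.2.2.1, h⟩ := by
      funext z
      unfold ext
      rw [dif_pos h]
    rw [this]
    exact (measurable_pi_apply _).comp measurable_snd
  · have : (fun z : Bool × (D → Bool) => ext z.1 z.2 y) = fun z => z.1 := by
      funext z
      unfold ext
      rw [dif_neg h]
    rw [this]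
    exact measurable_fst

/-- a family of left orders is measurable if the positivity of every element is -/
lemma FN3_aux {Z : Type} [MeasurableSpace Z] (q : Z → Q) (ε : Z → D → Bool)
    (h : ∀ g : F, MeasurableSet {z : Z | PosQ (q z) (ε z) g}) :
    Measurable fun z => Ord (q z) (ε z) := by
  have h1 : Measurable (fun z => (Ord (q z) (ε z)).1) := by
    rw [measurable_pi_iff]
    intro p
    refine measurable_to_bool ?_
    have e : (fun z => (Ord (q z) (ε z)).1 p) ⁻¹' {true} =
        {z | PosQ (q z) (ε z) (p.1⁻¹ * p.2)} := by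
      ext z
      rw [Set.mem_preimage, Set.mem_singleton_iff, Set.mem_ofPred_eq]
      have := Pr_iff (Ord (q z) (ε z)) p.1 p.2
      rw [Prod.mk.eta] at this
      rw [this]
      exact Pr_ofCone _ _ _
    rw [e]
    exact h _
  exact h1.subtype_mk

theorem FN3 : FN3_stmt := by
  have hl : Measurable fun z : Bool × (D → Bool) => Ord (Sum.inl z.1) z.2 := by
    refine FN3_aux (fun z : Bool × (D → Bool) => Sum.inl z.1) (fun z => z.2) fun g => ?_
    exact FN3_ext_meas (FN3_pos_meas g)
  have hr : Measurable fun z : LO (Abelianization F) × (D → Bool) => Ord (Sum.inr z.1) z.2 := by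
    refine FN3_aux (fun z : LO (Abelianization F) × (D → Bool) => Sum.inr z.1) (fun z => z.2)
      fun g => ?_
    show MeasurableSet {z : LO (Abelianization F) × (D → Bool) |
      z.1.1 (1, Abelianization.of g) = true ∨ (Abelianization.of g = 1 ∧ Pos (ext true z.2) g.1)}
    refine MeasurableSet.union ?_ ?_
    · have h1 : Measurable fun z : LO (Abelianization F) × (D → Bool) =>
          z.1.1 (1, Abelianization.of g) :=
        (measurable_pi_apply (1, Abelianization.of g)).comp
          (measurable_subtype_coe.comp measurable_fst)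
      exact h1 (measurableSet_singleton true)
    · have h2 : Measurable fun z : LO (Abelianization F) × (D → Bool) => ext true z.2 :=
        FN3_ext_meas.comp (measurable_const.prodMk measurable_snd)
      exact (MeasurableSet.const _).inter (h2 (FN3_pos_meas g))
  have h3 : Measurable fun w : (Bool × (D → Bool)) ⊕ (LO (Abelianization F) × (D → Bool)) =>
      (Sum.elim (fun z => Ord (Sum.inl z.1) z.2) (fun z => Ord (Sum.inr z.1) z.2) w : LO F) :=
    Measurable.sumElim hl hr
  have h4 := h3.comp (MeasurableEquiv.sumProdDistrib Bool (LO (Abelianization F)) (D → Bool)).measurable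
  have h5 : (fun z : Q × (D → Bool) => Ord z.1 z.2) =
      (fun w : (Bool × (D → Bool)) ⊕ (LO (Abelianization F) × (D → Bool)) =>
      (Sum.elim (fun z => Ord (Sum.inl z.1) z.2) (fun z => Ord (Sum.inr z.1) z.2) w : LO F)) ∘
      (MeasurableEquiv.sumProdDistrib Bool (LO (Abelianization F)) (D → Bool)) := by
    funext z
    obtain ⟨q, ε⟩ := z
    rcases q with s | o
    · rfl
    · rfl
  show Measurable fun z : Q × (D → Bool) => Ord z.1 z.2
  rw [h5]
  exact h4

end Pool.Agent.IRO
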