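import Pool.Agent.helper97.IRO.Spec

set_option autoImplicit false

/-! # Invariant random left orders of `F`, row FN6 -/

open MeasureTheory Pool.Agent.LOF

namespace Pool.Agent.IRO

lemma FN6_conj_meas (g : F) : Measurable (conj g : LO F → LO F) := by
  have h : Measurable (fun r : LO F => (conj g r).1) := by
    rw [measurable_pi_iff]
    intro p
    exact (measurable_pi_apply (p.1 * g, p.2 * g)).comp measurable_subtype_coe
  exact h.subtype_mk

lemma FN6_pull_meas : Measurable (pull : LO F → LO F) := by
  have h : Measurable (fun r : LO F => (pull r).1) := by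
    rw [measurable_pi_iff]
    intro p
    exact (measurable_pi_apply (mirF p.1, mirF p.2)).comp measurable_subtype_coe
  exact h.subtype_mk

lemma FN6_actS_meas (g : F) : Measurable (actS g) := by
  rw [measurable_pi_iff]
  intro y
  exact measurable_pi_apply _

lemma FN6_mul_inv (g : F) (y : D) : actD g (actD g⁻¹ y) = y := by
  apply Subtype.ext
  show g.1 ((g⁻¹ : F).1 y.1) = y.1
  show g.1 (g.1.symm y.1) = y.1
  rw [OrderIso.apply_symm_apply]

lemma FN6_inv_mul (g : F) (y : D) : actD g⁻¹ (actD g y) = y := by
  apply Subtype.ext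
  show g.1.symm (g.1 y.1) = y.1
  rw [OrderIso.symm_apply_apply]

/-- the permutation of the dyadics -/
def FN6_perm (g : F) : D ≃ D where
  toFun := actD g
  invFun := actD g⁻¹
  left_inv := FN6_inv_mul g
  right_inv := FN6_mul_inv g

lemma FN6_bern (p : unitInterval) (g : F) : (bernP p).map (actS g) = bernP p := by
  have h := Measure.infinitePi_map_piCongrLeft (μ := fun _ : D => coinP p) (FN6_perm g)
  have h2 : (MeasurableEquiv.piCongrLeft (fun _ : D => Bool) (FN6_perm g) :
      (D → Bool) → (D → Bool)) = actS g := by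
    funext ε y
    rw [MeasurableEquiv.coe_piCongrLeft]
    have := Equiv.piCongrLeft_apply_apply (fun _ : D => Bool) (FN6_perm g) ε (actD g⁻¹ y)
    have e1 : (FN6_perm g) (actD g⁻¹ y) = y := FN6_mul_inv g y
    rw [e1] at this
    exact this
  rw [h2] at h
  exact h

lemma FN6_mirF (g : F) : mirF (mirF g) = g := Subtype.ext (mir_mir g.1)

lemma FN6_pull_conj (g : F) (r : LO F) : conj g (pull r) = pull (conj (mirF g) r) := by
  apply Subtype.ext
  funext p
  show r.1 (mirF (p.1 * g), mirF (p.2 * g)) = r.1 (mirF p.1 * mirF g, mirF p.2 * mirF g)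
  rw [map_mul, map_mul]

theorem FN6 (hFN2 : FN2_stmt) (hFN3 : FN3_stmt) : FN6_stmt := by
  intro t q p g
  have hO : Measurable (Ord q) := hFN3.comp measurable_prodMk_left
  have hL : ∀ t : Bool, Measurable fun ε : D → Bool => if t then Ord q ε else pull (Ord q ε) := by
    intro t
    cases t
    · exact FN6_pull_meas.comp hO
    · exact hO
  unfold law
  rw [Measure.map_map (FN6_conj_meas g) (hL t)]
  have key : ∃ g' : F, (conj g ∘ fun ε : D → Bool => if t then Ord q ε else pull (Ord q ε)) =
      (fun ε : D → Bool => if t then Ord q ε else pull (Ord q ε)) ∘ actS g' := by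
    cases t
    · refine ⟨mirF g, ?_⟩
      funext ε
      show conj g (pull (Ord q ε)) = pull (Ord q (actS (mirF g) ε))
      rw [FN6_pull_conj, hFN2]
    · refine ⟨g, ?_⟩
      funext ε
      exact hFN2 g q ε
  obtain ⟨g', hg'⟩ := key
  rw [hg', ← Measure.map_map (hL t) (FN6_actS_meas g'), FN6_bern]

end Pool.Agent.IRO
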