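import Pool.Agent.helper97.IRO.Spec

set_option autoImplicit false

/-! # Invariant random left orders of `F`, row G7 -/

open MeasureTheory Pool.Agent.LOF

namespace Pool.Agent.IRO

lemma G7_left (g : F) (b : ℝ) : ∃ e < b, ∃ l : ℤ, ∀ z, e ≤ z → z ≤ b →
    g.1 z = g.1 b + 2 ^ l * (z - b) := by
  classical
  obtain ⟨_, B, _, hB⟩ := g.2
  let S : Finset ℝ := insert (b - 1) (B.filter fun x => x < b)
  have hS : S.Nonempty := ⟨b - 1, Finset.mem_insert_self _ _⟩
  have h1 : S.max' hS < b := by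
    rw [Finset.max'_lt_iff]
    intro x hx
    rcases Finset.mem_insert.1 hx with h | h
    · rw [h]; linarith
    · exact (Finset.mem_filter.1 h).2
  obtain ⟨l, c, hl⟩ := hB (S.max' hS) b h1 (by
    intro x hx
    by_cases h : x < b
    · left
      exact Finset.le_max' S x (Finset.mem_insert_of_mem (Finset.mem_filter.2 ⟨hx, h⟩))
    · right
      exact not_lt.1 h)
  refine ⟨S.max' hS, h1, l, fun z hz1 hz2 => ?_⟩
  rw [hl z ⟨hz1, hz2⟩, hl b ⟨h1.le, le_rfl⟩]
  ring

lemma G7_right (g : F) (b : ℝ) : ∃ e > b, ∃ l : ℤ, ∀ z, b ≤ z → z ≤ e →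
    g.1 z = g.1 b + 2 ^ l * (z - b) := by
  classical
  obtain ⟨_, B, _, hB⟩ := g.2
  let S : Finset ℝ := insert (b + 1) (B.filter fun x => b < x)
  have hS : S.Nonempty := ⟨b + 1, Finset.mem_insert_self _ _⟩
  have h1 : b < S.min' hS := by
    rw [Finset.lt_min'_iff]
    intro x hx
    rcases Finset.mem_insert.1 hx with h | h
    · rw [h]; linarith
    · exact (Finset.mem_filter.1 h).2
  obtain ⟨l, c, hl⟩ := hB b (S.min' hS) h1 (by
    intro x hx
    by_cases h : b < x
    · right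
      exact Finset.min'_le S x (Finset.mem_insert_of_mem (Finset.mem_filter.2 ⟨hx, h⟩))
    · left
      exact not_lt.1 h)
  refine ⟨S.min' hS, h1, l, fun z hz1 hz2 => ?_⟩
  rw [hl z ⟨hz1, hz2⟩, hl b ⟨le_rfl, h1.le⟩]
  ring

theorem G7 : G7_stmt := by
  intro g u b k
  have hk : (0 : ℝ) < 2 ^ k := by positivity
  constructor
  · rintro ⟨e, he, hu⟩
    obtain ⟨e', he', l, hl⟩ := G7_left g b
    have h3 : b - (b - e') / 2 ^ k < b := by
      have : 0 < (b - e') / 2 ^ k := div_pos (by linarith) hk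
      linarith
    set z₀ : ℝ := max (max e e') (b - (b - e') / 2 ^ k) with hz₀
    have hz₀b : z₀ < b := max_lt (max_lt he he') h3
    refine ⟨g.1 z₀, g.1.strictMono hz₀b, fun w hw1 hw2 => ?_⟩
    obtain ⟨z, rfl⟩ := g.1.surjective w
    have hz1 : z₀ < z := g.1.lt_iff_lt.1 hw1
    have hz2 : z ≤ b := g.1.le_iff_le.1 hw2
    have a1 : e < z := ((le_max_left _ _).trans (le_max_left _ _)).trans_lt hz1
    have a2 : e' < z := ((le_max_right _ _).trans (le_max_left _ _)).trans_lt hz1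
    have a3 : b - (b - e') / 2 ^ k < z := (le_max_right _ _).trans_lt hz1
    have e1 : (g * u * g⁻¹).1 (g.1 z) = g.1 (u.1 z) := by
      show g.1 (u.1 (g.1.symm (g.1 z))) = g.1 (u.1 z)
      rw [OrderIso.symm_apply_apply]
    have e2 := hu z a1 hz2
    have b1 : e' ≤ u.1 z := by
      rw [e2]
      have : (b - z) < (b - e') / 2 ^ k := by linarith
      rw [lt_div_iff₀ hk] at this
      nlinarith
    have b2 : u.1 z ≤ b := by
      rw [e2]
      have := mul_nonneg hk.le (sub_nonneg.2 hz2)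
      nlinarith
    rw [e1, hl (u.1 z) b1 b2, hl z a2.le hz2, e2]
    ring
  · rintro ⟨e, he, hu⟩
    obtain ⟨e', he', l, hl⟩ := G7_right g b
    have h3 : b < b + (e' - b) / 2 ^ k := by
      have : 0 < (e' - b) / 2 ^ k := div_pos (by linarith) hk
      linarith
    set z₀ : ℝ := min (min e e') (b + (e' - b) / 2 ^ k) with hz₀
    have hz₀b : b < z₀ := lt_min (lt_min he he') h3
    refine ⟨g.1 z₀, g.1.strictMono hz₀b, fun w hw1 hw2 => ?_⟩
    obtain ⟨z, rfl⟩ := g.1.surjective w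
    have hz1 : z < z₀ := g.1.lt_iff_lt.1 hw2
    have hz2 : b ≤ z := g.1.le_iff_le.1 hw1
    have a1 : z < e := hz1.trans_le ((min_le_left _ _).trans (min_le_left _ _))
    have a2 : z < e' := hz1.trans_le ((min_le_left _ _).trans (min_le_right _ _))
    have a3 : z < b + (e' - b) / 2 ^ k := hz1.trans_le (min_le_right _ _)
    have e1 : (g * u * g⁻¹).1 (g.1 z) = g.1 (u.1 z) := by
      show g.1 (u.1 (g.1.symm (g.1 z))) = g.1 (u.1 z)
      rw [OrderIso.symm_apply_apply]
    have e2 := hu z hz2 a1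
    have b1 : u.1 z ≤ e' := by
      rw [e2]
      have : (z - b) < (e' - b) / 2 ^ k := by linarith
      rw [lt_div_iff₀ hk] at this
      nlinarith
    have b2 : b ≤ u.1 z := by
      rw [e2]
      have := mul_nonneg hk.le (sub_nonneg.2 hz2)
      nlinarith
    rw [e1, hl (u.1 z) b2 b1, hl z hz2 a2.le, e2]
    ring

end Pool.Agent.IRO
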